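import Pool.Agent.K1H53.EX.Plan

/-! # Project EX: `S_INV`, transfer of the invariants -/

set_option autoImplicit false

open MeasureTheory Filter Topology

namespace Pool.Agent.K1H89.EX

open Pool.Agent.K1H53.EX

theorem integrable_cm {X : Type} [TopologicalSpace X] [CompactSpace X] [MeasurableSpace X]
    [OpensMeasurableSpace X] (μ : Measure X) [IsFiniteMeasure μ] (f : C(X, ℝ)) :
    Integrable (fun x => f x) μ :=
  f.continuous.integrable_of_hasCompactSupport (HasCompactSupport.of_compactSpace f)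

section

variable {S : Type} [Fintype S] [DecidableEq S] [TopologicalSpace S] [DiscreteTopology S]
  [MeasurableSpace S] [BorelSpace S] {a : S × S → S × S} {p : ℤ → ℝ}
  {P : ℝ → C(ℤ → S, ℝ) →L[ℝ] C(ℤ → S, ℝ)}

theorem P_pos (hP : IsSG a p P) {t : ℝ} (ht : 0 ≤ t) {f : C(ℤ → S, ℝ)} (hf : ∀ η, 0 ≤ f η)
    (η : ℤ → S) : 0 ≤ P t f η := by
  have h := hP.conv {f | ∀ η, 0 ≤ f η} ?_ ?_ ?_ t ht f hf
  · exact h η
  · have e : {f : C(ℤ → S, ℝ) | ∀ η, 0 ≤ f η} = ⋂ η, {f | 0 ≤ f η} := by ext f; simp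
    rw [e]
    exact isClosed_iInter fun η => isClosed_le continuous_const (continuous_eval_const η)
  · intro f hf g hg a b ha hb _ η
    show 0 ≤ (a • f + b • g) η
    rw [ContinuousMap.add_apply, ContinuousMap.smul_apply, ContinuousMap.smul_apply, smul_eq_mul,
      smul_eq_mul]
    exact add_nonneg (mul_nonneg ha (hf η)) (mul_nonneg hb (hg η))
  · intro f hf u v η
    exact hf _

theorem P_const (hP : IsSG a p P) {t : ℝ} (ht : 0 ≤ t) (c : ℝ) :
    P t (ContinuousMap.const _ c) = ContinuousMap.const _ c := by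
  have h := hP.conv {ContinuousMap.const _ c} isClosed_singleton (convex_singleton _) ?_ t ht
    (ContinuousMap.const _ c) rfl
  · exact h
  · intro f hf u v
    rw [Set.mem_singleton_iff] at hf
    subst hf
    rfl

theorem P_mono (hP : IsSG a p P) {t : ℝ} (ht : 0 ≤ t) {f g : C(ℤ → S, ℝ)} (hf : ∀ η, f η ≤ g η)
    (η : ℤ → S) : P t f η ≤ P t g η := by
  have h := P_pos hP ht (f := g - f) (fun η => by
    rw [ContinuousMap.sub_apply]; exact sub_nonneg.2 (hf η)) η
  rw [map_sub, ContinuousMap.sub_apply] at h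
  linarith

theorem P_le (hP : IsSG a p P) {t : ℝ} (ht : 0 ≤ t) {f : C(ℤ → S, ℝ)} {M : ℝ}
    (hf : ∀ η, |f η| ≤ M) (η : ℤ → S) : |P t f η| ≤ M := by
  have h1 := P_mono hP ht (f := f) (g := ContinuousMap.const _ M) (fun η => (abs_le.1 (hf η)).2) η
  have h2 := P_mono hP ht (f := ContinuousMap.const _ (-M)) (g := f) (fun η => (abs_le.1 (hf η)).1) η
  rw [P_const hP ht, ContinuousMap.const_apply] at h1 h2
  exact abs_le.2 ⟨h2, h1⟩

theorem P_sq (hP : IsSG a p P) {t : ℝ} (ht : 0 ≤ t) (h : C(ℤ → S, ℝ)) (c : ℝ) (η : ℤ → S) :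
    P t ((h - ContinuousMap.const _ c) * (h - ContinuousMap.const _ c)) η =
      P t (h * h) η - 2 * c * P t h η + c ^ 2 := by
  have e : (h - ContinuousMap.const _ c) * (h - ContinuousMap.const _ c) =
      h * h - (2 * c) • h + ContinuousMap.const _ (c ^ 2) := by
    ext η
    simp only [ContinuousMap.mul_apply, ContinuousMap.sub_apply, ContinuousMap.const_apply,
      ContinuousMap.add_apply, ContinuousMap.smul_apply, smul_eq_mul]
    ring
  rw [e, map_add, map_sub, map_smul, P_const hP ht]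
  simp only [ContinuousMap.sub_apply, ContinuousMap.const_apply,
      ContinuousMap.add_apply, ContinuousMap.smul_apply, smul_eq_mul]

theorem P_sq_nonneg (hP : IsSG a p P) {t : ℝ} (ht : 0 ≤ t) (h : C(ℤ → S, ℝ)) (c : ℝ) (η : ℤ → S) :
    0 ≤ P t (h * h) η - 2 * c * P t h η + c ^ 2 := by
  rw [← P_sq hP ht]
  refine P_pos hP ht (fun η => ?_) η
  rw [ContinuousMap.mul_apply]
  exact mul_self_nonneg _

theorem P_jensen (hP : IsSG a p P) {t : ℝ} (ht : 0 ≤ t) (h : C(ℤ → S, ℝ)) (η : ℤ → S) :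
    (P t h η) ^ 2 ≤ P t (h * h) η := by
  have := P_sq_nonneg hP ht h (P t h η) η
  nlinarith

end

theorem int_add2 {X : Type} [TopologicalSpace X] [CompactSpace X] [MeasurableSpace X]
    [OpensMeasurableSpace X] (μ : Measure X) [IsFiniteMeasure μ] (u v w : C(X, ℝ)) :
    Integrable (fun η => u η + 2 * v η + w η) μ ∧
    ∫ η, (u η + 2 * v η + w η) ∂μ = ∫ η, u η ∂μ + 2 * ∫ η, v η ∂μ + ∫ η, w η ∂μ := by
  have i1 := integrable_cm μ u
  have i2 := (integrable_cm μ v).const_mul 2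
  have i3 := integrable_cm μ w
  have i4 : Integrable (fun η => u η + 2 * v η) μ := i1.add i2
  refine ⟨i4.add i3, ?_⟩
  rw [integral_add i4 i3, integral_add i1 i2, integral_const_mul]

theorem int_sub2 {X : Type} [TopologicalSpace X] [CompactSpace X] [MeasurableSpace X]
    [OpensMeasurableSpace X] (μ : Measure X) [IsFiniteMeasure μ] (u v w : C(X, ℝ)) :
    Integrable (fun η => u η - 2 * v η + w η) μ ∧
    ∫ η, (u η - 2 * v η + w η) ∂μ = ∫ η, u η ∂μ - 2 * ∫ η, v η ∂μ + ∫ η, w η ∂μ := by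
  have i1 := integrable_cm μ u
  have i2 := (integrable_cm μ v).const_mul 2
  have i3 := integrable_cm μ w
  have i4 : Integrable (fun η => u η - 2 * v η) μ := i1.sub i2
  refine ⟨i4.add i3, ?_⟩
  rw [integral_add i4 i3, integral_sub i1 i2, integral_const_mul]

/-- the distance of the two copies -/
noncomputable def Phi (h : C(Cfg, ℝ)) : C(Cfg2, ℝ) :=
  ⟨fun ω => |h (π1 ω) - h (shi (π2 ω))|, by fun_prop⟩

/-- `|h - c|` -/
noncomputable def ab (h : C(Cfg, ℝ)) (c : ℝ) : C(Cfg, ℝ) := ⟨fun η => |h η - c|, by fun_prop⟩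

theorem Q_Phi_le (hM : S_MARG) {p : ℤ → ℝ} {P : ℝ → C(Cfg, ℝ) →L[ℝ] C(Cfg, ℝ)}
    {Q : ℝ → C(Cfg2, ℝ) →L[ℝ] C(Cfg2, ℝ)} (hP : IsSG a1 p P) (hQ : IsSG a2 p Q) {s : ℝ}
    (hs : 0 ≤ s) (h : C(Cfg, ℝ)) {r : ℝ} (hr : 0 < r) (η : Cfg) :
    Q s (Phi h) (diag η) ≤ (P s (h * h) η - 2 * h η * P s h η + (h η) ^ 2) / r + r := by
  have e1 : π1 (diag η) = η := rfl
  have e2 : shi (π2 (diag η)) = η := by
    funext x
    show η (x + 1 - 1) = η x
    rw [add_sub_cancel_right]
  have m1 := (hM p P Q hP hQ s hs (ab h (h η))).1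
  have m2 := (hM p P Q hP hQ s hs ((ab h (h η)).comp shi)).2.1
  have m3 := (hM p P Q hP hQ s hs (ab h (h η))).2.2.2
  have h1 : Q s (Phi h) (diag η) ≤
      Q s ((ab h (h η)).comp π1 + ((ab h (h η)).comp shi).comp π2) (diag η) := by
    refine P_mono hQ hs (fun ω => ?_) _
    show |h (π1 ω) - h (shi (π2 ω))| ≤ |h (π1 ω) - h η| + |h (shi (π2 ω)) - h η|
    have := abs_sub_le (h (π1 ω)) (h η) (h (shi (π2 ω)))
    rwa [abs_sub_comm (h η)] at this
  rw [map_add, ContinuousMap.add_apply, m1, m2, m3] at h1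
  have h2 : ((P s (ab h (h η))).comp π1) (diag η) = P s (ab h (h η)) η := rfl
  have h3 : (((P s (ab h (h η))).comp shi).comp π2) (diag η) = P s (ab h (h η)) η := by
    show P s (ab h (h η)) (shi (π2 (diag η))) = _
    rw [e2]
  rw [h2, h3] at h1
  have h4 : P s ((2 : ℝ) • ab h (h η)) η ≤
      P s ((1 / r) • ((h - ContinuousMap.const _ (h η)) * (h - ContinuousMap.const _ (h η))) +
        ContinuousMap.const _ r) η := by
    refine P_mono hP hs (fun ζ => ?_) _
    show 2 * |h ζ - h η| ≤ 1 / r * ((h ζ - h η) * (h ζ - h η)) + r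
    have h5 : 0 ≤ (|h ζ - h η| - r) ^ 2 / r := by positivity
    have h6 : (|h ζ - h η| - r) ^ 2 / r = 1 / r * (|h ζ - h η| ^ 2) - 2 * |h ζ - h η| + r := by
      field_simp
      ring
    rw [h6, sq_abs] at h5
    nlinarith
  rw [map_smul, ContinuousMap.smul_apply, smul_eq_mul, map_add, ContinuousMap.add_apply, map_smul,
    ContinuousMap.smul_apply, smul_eq_mul, P_const hP hs, ContinuousMap.const_apply,
    P_sq hP hs] at h4
  have h7 : 1 / r * (P s (h * h) η - 2 * h η * P s h η + (h η) ^ 2) =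
      (P s (h * h) η - 2 * h η * P s h η + (h η) ^ 2) / r := by ring
  rw [h7] at h4
  linarith

theorem t_INV (hM : S_MARG) (hA : S_ABS) : S_INV := by
  intro p P Q μ ν B hp hP hQ hμ hμi hν hνi hH hB hBs f
  -- the convex set of all functions with the same integrals
  set M : ℝ := ‖f‖ with hMdef
  have hM0 : 0 ≤ M := norm_nonneg f
  let K : Set C(Cfg, ℝ) := {h | (∀ η, |h η| ≤ M) ∧
    ∫ ω in B, h (π1 ω) ∂ν = ∫ ω in B, f (π1 ω) ∂ν ∧
    ∫ ω in B, h (shi (π2 ω)) ∂ν = ∫ ω in B, f (shi (π2 ω)) ∂ν}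
  have hfK : f ∈ K := ⟨fun η => by
    have := f.norm_coe_le_norm η
    rwa [Real.norm_eq_abs] at this, rfl, rfl⟩
  have hPK : ∀ s, 0 ≤ s → ∀ h ∈ K, P s h ∈ K := by
    rintro s hs h ⟨h1, h2, h3⟩
    refine ⟨fun η => P_le hP hs h1 η, ?_, ?_⟩
    · rw [← h2]
      have m1 := (hM p P Q hP hQ s hs h).1
      have m2 := hA (Bool × Bool) a2 p Q ν B hQ hν hνi hB hBs s hs (h.comp π1)
      rw [m1] at m2
      exact m2
    · rw [← h3]
      have m1 := (hM p P Q hP hQ s hs (h.comp shi)).2.1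
      have m3 := (hM p P Q hP hQ s hs h).2.2.2
      have m2 := hA (Bool × Bool) a2 p Q ν B hQ hν hνi hB hBs s hs ((h.comp shi).comp π2)
      rw [m1, m3] at m2
      exact m2
  have int1 : ∀ h : C(Cfg, ℝ), IntegrableOn (fun ω => h (π1 ω)) B ν := fun h =>
    (integrable_cm ν (h.comp π1)).integrableOn
  have int2 : ∀ h : C(Cfg, ℝ), IntegrableOn (fun ω => h (shi (π2 ω))) B ν := fun h =>
    (integrable_cm ν ((h.comp shi).comp π2)).integrableOn
  have hmid : ∀ h ∈ K, ∀ g ∈ K, (1 / 2 : ℝ) • (h + g) ∈ K := by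
    rintro h ⟨h1, h2, h3⟩ g ⟨g1, g2, g3⟩
    refine ⟨fun η => ?_, ?_, ?_⟩
    · rw [ContinuousMap.smul_apply, ContinuousMap.add_apply, smul_eq_mul]
      have a1 := abs_le.1 (h1 η)
      have a2 := abs_le.1 (g1 η)
      exact abs_le.2 ⟨by linarith, by linarith⟩
    · have e : (fun ω => ((1 / 2 : ℝ) • (h + g)) (π1 ω)) =
          fun ω => (1 / 2 : ℝ) * (h (π1 ω) + g (π1 ω)) := rfl
      rw [e, integral_const_mul, integral_add (int1 h) (int1 g), h2, g2]
      ring
    · have e : (fun ω => ((1 / 2 : ℝ) • (h + g)) (shi (π2 ω))) =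
          fun ω => (1 / 2 : ℝ) * (h (shi (π2 ω)) + g (shi (π2 ω))) := rfl
      rw [e, integral_const_mul, integral_add (int2 h) (int2 g), h3, g3]
      ring
  -- the infimum of the second moments
  let I : Set ℝ := (fun h : C(Cfg, ℝ) => ∫ η, (h η) ^ 2 ∂μ) '' K
  have hI0 : ∀ x ∈ I, 0 ≤ x := by
    rintro x ⟨h, -, rfl⟩
    exact integral_nonneg fun η => sq_nonneg _
  have hIbdd : BddBelow I := ⟨0, hI0⟩
  have hIne : I.Nonempty := ⟨_, f, hfK, rfl⟩
  set d := sInf I with hd
  -- the main estimate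
  have key : ∀ κ : ℝ, 0 < κ →
      |∫ ω in B, f (π1 ω) ∂ν - ∫ ω in B, f (shi (π2 ω)) ∂ν| ≤ κ := by
    intro κ hκ
    obtain ⟨δ, hδ0, hδ⟩ : ∃ δ : ℝ, 0 < δ ∧ δ * M ^ 2 ≤ κ / 4 * (κ / 2) := by
      refine ⟨κ / 4 * (κ / 2) / (M ^ 2 + 1), by positivity, ?_⟩
      rw [div_mul_eq_mul_div, div_le_iff₀ (by positivity)]
      have : 0 < κ / 4 * (κ / 2) := by positivity
      nlinarith [sq_nonneg M]
    obtain ⟨ε, hε0, hε⟩ : ∃ ε : ℝ, 0 < ε ∧ 4 * ε / δ ≤ κ / 4 * (κ / 2) := by
      refine ⟨κ / 4 * (κ / 2) * δ / 4, by positivity, ?_⟩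
      rw [show 4 * (κ / 4 * (κ / 2) * δ / 4) / δ = κ / 4 * (κ / 2) by field_simp]
    obtain ⟨x, ⟨h, hK, rfl⟩, hx⟩ := exists_lt_of_csInf_lt hIne (show d < d + ε by linarith)
    simp only at hx
    have hbound : ∀ g ∈ K, d ≤ ∫ η, (g η) ^ 2 ∂μ := fun g hg => csInf_le hIbdd ⟨g, hg, rfl⟩
    -- the estimate for the semigroup
    have hest : ∀ s, 0 ≤ s → ∫ η, Q s (Phi h) (diag η) ∂μ ≤ κ := by
      intro s hs
      have i1 := integrable_cm μ (h * h)
      have i2 := integrable_cm μ (P s h * P s h)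
      have i3 := integrable_cm μ (P s (h * h))
      have i4 := integrable_cm μ (h * P s h)
      have j1 : ∫ η, (h η) ^ 2 ∂μ = ∫ η, (h * h) η ∂μ := by
        refine integral_congr_ae (Eventually.of_forall fun η => ?_)
        show (h η) ^ 2 = h η * h η
        ring
      have j2 : ∫ η, (P s (h * h)) η ∂μ = ∫ η, (h * h) η ∂μ := hμi s hs (h * h)
      have j3 : ∫ η, (P s h * P s h) η ∂μ ≤ ∫ η, (h * h) η ∂μ := by
        rw [← j2]
        refine integral_mono i2 i3 fun η => ?_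
        show P s h η * P s h η ≤ _
        have := P_jensen hP hs h η
        nlinarith
      have j4 : d ≤ 1 / 4 * (∫ η, (h * h) η ∂μ + 2 * ∫ η, (h * P s h) η ∂μ +
          ∫ η, (P s h * P s h) η ∂μ) := by
        refine (hbound _ (hmid h hK _ (hPK s hs h hK))).trans (le_of_eq ?_)
        have e : ∀ η, (((1 / 2 : ℝ) • (h + P s h)) η) ^ 2 =
            1 / 4 * ((h * h) η + 2 * (h * P s h) η + (P s h * P s h) η) := by
          intro η
          show ((1 / 2 : ℝ) * (h η + P s h η)) ^ 2 =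
            1 / 4 * (h η * h η + 2 * (h η * P s h η) + P s h η * P s h η)
          ring
        simp only [e]
        rw [integral_const_mul, (int_add2 μ (h * h) (h * P s h) (P s h * P s h)).2]
      -- the second moment of the difference
      have j5 : ∫ η, (h * h) η ∂μ - 2 * ∫ η, (h * P s h) η ∂μ + ∫ η, (P s h * P s h) η ∂μ ≤
          4 * ε := by
        rw [j1] at hx
        linarith
      have j6 : 2 * (∫ η, (h * h) η ∂μ - ∫ η, (h * P s h) η ∂μ) ≤ δ * M ^ 2 + 4 * ε / δ := by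
        have e1 : 2 * (∫ η, (h * h) η ∂μ - ∫ η, (h * P s h) η ∂μ) =
            ∫ η, 2 * ((h * h) η - (h * P s h) η) ∂μ := by
          rw [integral_const_mul, integral_sub i1 i4]
        have e2 : ∫ η, (δ * M ^ 2 + 1 / δ * ((h * h) η - 2 * (h * P s h) η + (P s h * P s h) η)) ∂μ =
            δ * M ^ 2 + 1 / δ * (∫ η, (h * h) η ∂μ - 2 * ∫ η, (h * P s h) η ∂μ +
              ∫ η, (P s h * P s h) η ∂μ) := by
          have q := int_sub2 μ (h * h) (h * P s h) (P s h * P s h)
          rw [integral_add (integrable_const _) (q.1.const_mul _), integral_const_mul (1 / δ), q.2]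
          simp
        have e3 : ∫ η, 2 * ((h * h) η - (h * P s h) η) ∂μ ≤
            ∫ η, (δ * M ^ 2 + 1 / δ * ((h * h) η - 2 * (h * P s h) η + (P s h * P s h) η)) ∂μ := by
          have q := int_sub2 μ (h * h) (h * P s h) (P s h * P s h)
          refine integral_mono ((i1.sub i4).const_mul 2) ((integrable_const _).add
            (q.1.const_mul _)) fun η => ?_
          show 2 * (h η * h η - h η * P s h η) ≤
            δ * M ^ 2 + 1 / δ * (h η * h η - 2 * (h η * P s h η) + P s h η * P s h η)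
          have k1 : (h η) ^ 2 ≤ M ^ 2 := by
            have := hK.1 η
            rw [← sq_abs]
            exact pow_le_pow_left₀ (abs_nonneg _) this 2
          have k2 : 0 ≤ (δ * h η - (h η - P s h η)) ^ 2 / δ := by positivity
          have k3 : (δ * h η - (h η - P s h η)) ^ 2 / δ = δ * (h η) ^ 2 -
              2 * (h η * h η - h η * P s h η) +
              1 / δ * (h η * h η - 2 * (h η * P s h η) + P s h η * P s h η) := by
            field_simp
            ring
          rw [k3] at k2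
          have k4 : δ * (h η) ^ 2 ≤ δ * M ^ 2 := mul_le_mul_of_nonneg_left k1 hδ0.le
          linarith
        rw [e1]
        refine e3.trans ?_
        rw [e2]
        have k5 : 1 / δ * (∫ η, (h * h) η ∂μ - 2 * ∫ η, (h * P s h) η ∂μ +
              ∫ η, (P s h * P s h) η ∂μ) ≤ 1 / δ * (4 * ε) :=
          mul_le_mul_of_nonneg_left j5 (by positivity)
        have k6 : 1 / δ * (4 * ε) = 4 * ε / δ := by ring
        linarith
      have hr : 0 < κ / 2 := by positivity
      have e4 : ∫ η, Q s (Phi h) (diag η) ∂μ ≤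
          ∫ η, ((P s (h * h) η - 2 * (h * P s h) η + (h * h) η) / (κ / 2) + κ / 2) ∂μ := by
        have q := int_sub2 μ (P s (h * h)) (h * P s h) (h * h)
        refine integral_mono (integrable_cm μ ((Q s (Phi h)).comp diag))
          ((q.1.div_const _).add (integrable_const _)) fun η => ?_
        refine (Q_Phi_le hM hP hQ hs h hr η).trans (le_of_eq ?_)
        show (P s (h * h) η - 2 * h η * P s h η + (h η) ^ 2) / (κ / 2) + κ / 2 =
          (P s (h * h) η - 2 * (h η * P s h η) + h η * h η) / (κ / 2) + κ / 2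
        ring
      refine e4.trans ?_
      have q := int_sub2 μ (P s (h * h)) (h * P s h) (h * h)
      rw [integral_add (q.1.div_const _) (integrable_const _), integral_div, q.2, j2]
      simp only [integral_const, probReal_univ, smul_eq_mul, one_mul]
      have k7 : (∫ η, (h * h) η ∂μ - 2 * ∫ η, (h * P s h) η ∂μ + ∫ η, (h * h) η ∂μ) / (κ / 2) ≤
          κ / 2 := by
        rw [div_le_iff₀ hr]
        nlinarith
      linarith
    have h5 := hH (Phi h) κ hest
    rw [← hK.2.1, ← hK.2.2, ← integral_sub (int1 h) (int2 h)]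
    calc |∫ ω in B, (h (π1 ω) - h (shi (π2 ω))) ∂ν|
        ≤ ∫ ω in B, |h (π1 ω) - h (shi (π2 ω))| ∂ν := abs_integral_le_integral_abs
      _ ≤ ∫ ω, |h (π1 ω) - h (shi (π2 ω))| ∂ν :=
          setIntegral_le_integral (integrable_cm ν (Phi h))
            (Eventually.of_forall fun ω => abs_nonneg _)
      _ ≤ κ := h5
  have h6 : |∫ ω in B, f (π1 ω) ∂ν - ∫ ω in B, f (shi (π2 ω)) ∂ν| ≤ 0 :=
    le_of_forall_pos_le_add fun κ hκ => by rw [zero_add]; exact key κ hκ
  exact sub_eq_zero.1 (abs_eq_zero.1 (le_antisymm h6 (abs_nonneg _)))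

end Pool.Agent.K1H89.EX
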